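import Pool.Agent.helper84.QI.Spec

/-!
# Project QI, row BSQ: the square of `b` has infinitely many conjugates
-/

set_option autoImplicit false

namespace Pool.Agent.QI

theorem BSQ_cj {H : Type} [Group H] (x y : H) (hx : x ^ 2 = 1) (hy : y ^ 2 = 1) (h : H) (hh : h ∈ Subgroup.zpowers (x * y)) :
    x * h * x ∈ Subgroup.zpowers (x * y) := by
  obtain ⟨n, rfl⟩ := Subgroup.mem_zpowers_iff.1 hh
  have hxx : x * x = 1 := by rw [← pow_two, hx]
  have hyy : y * y = 1 := by rw [← pow_two, hy]
  have hxi : x⁻¹ = x := inv_eq_of_mul_eq_one_left hxx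
  have hyi : y⁻¹ = y := inv_eq_of_mul_eq_one_left hyy
  have h1 : x * (x * y) ^ n * x = ((x * y)⁻¹) ^ n := by
    have h2 : x * (x * y) ^ n * x = x * (x * y) ^ n * x⁻¹ := by rw [hxi]
    rw [h2, ← conj_zpow]
    congr 1
    rw [mul_inv_rev, hyi, hxi, ← mul_assoc x x y, hxx, one_mul]
  rw [h1]
  exact Subgroup.zpow_mem _ (Subgroup.inv_mem _ (Subgroup.mem_zpowers _)) _

theorem BSQ_mem {H : Type} [Group H] (x y : H) (hx : x ^ 2 = 1) (hy : y ^ 2 = 1)
    (hgen : Subgroup.closure ({x, y} : Set H) = ⊤) (h : H) :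
    h ∈ Subgroup.zpowers (x * y) ∨ x * h ∈ Subgroup.zpowers (x * y) := by
  have hxx : x * x = 1 := by rw [← pow_two, hx]
  have hh : h ∈ Subgroup.closure ({x, y} : Set H) := by
    rw [hgen]
    exact Subgroup.mem_top h
  induction hh using Subgroup.closure_induction with
  | mem z hz =>
    rcases hz with hz | hz
    · right
      rw [hz, hxx]
      exact Subgroup.one_mem _
    · right
      rw [Set.mem_singleton_iff.1 hz]
      exact Subgroup.mem_zpowers _
  | one => exact Or.inl (Subgroup.one_mem _)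
  | mul p q _ _ hp hq =>
    rcases hp with hp | hp
    · rcases hq with hq | hq
      · exact Or.inl (Subgroup.mul_mem _ hp hq)
      · right
        have h1 : x * (p * q) = (x * p * x) * (x * q) := by
          rw [mul_assoc (x * p) x, ← mul_assoc x x q, hxx, one_mul, mul_assoc]
        rw [h1]
        exact Subgroup.mul_mem _ (BSQ_cj x y hx hy p hp) hq
    · rcases hq with hq | hq
      · right
        rw [← mul_assoc]
        exact Subgroup.mul_mem _ hp hq
      · left
        have h1 : p * q = (x * (x * p) * x) * (x * q) := by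
          rw [← mul_assoc x x p, hxx, one_mul, mul_assoc p x, ← mul_assoc x x q, hxx, one_mul]
        rw [h1]
        exact Subgroup.mul_mem _ (BSQ_cj x y hx hy _ hp) hq
  | inv p _ hp =>
    rcases hp with hp | hp
    · exact Or.inl (Subgroup.inv_mem _ hp)
    · right
      have h1 := BSQ_cj x y hx hy _ (Subgroup.inv_mem _ hp)
      have hxi : x⁻¹ = x := inv_eq_of_mul_eq_one_left hxx
      have h2 : x * (x * p)⁻¹ * x = x * p⁻¹ := by
        rw [mul_inv_rev, hxi, mul_assoc, mul_assoc, hxx, mul_one]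
      rw [h2] at h1
      exact h1

theorem BSQ_false (hQIV : QIV_stmt) {H : Type} [Group H] (x y : H) (hCE : CE x y) (hx : x ^ 2 = 1) (hy : y ^ 2 = 1) : False := by
  refine hQIV H x y hCE (Subgroup.zpowers (x * y)) ?_ ?_
  · have hxx : x * x = 1 := by rw [← pow_two, hx]
    have hxi : x⁻¹ = x := inv_eq_of_mul_eq_one_left hxx
    have hfin : Finite (H ⧸ Subgroup.zpowers (x * y)) := by
      refine Finite.of_surjective (fun b : Bool => (QuotientGroup.mk (if b then x else 1) : H ⧸ Subgroup.zpowers (x * y))) ?_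
      intro z
      obtain ⟨h, rfl⟩ := QuotientGroup.mk_surjective z
      rcases BSQ_mem x y hx hy hCE.gen h with h1 | h1
      · refine ⟨false, ?_⟩
        simp only [Bool.false_eq_true, if_false]
        rw [QuotientGroup.eq, inv_one, one_mul]
        exact h1
      · refine ⟨true, ?_⟩
        simp only [if_true]
        rw [QuotientGroup.eq, hxi]
        exact h1
    exact Subgroup.finiteIndex_of_finite_quotient
  · intro p hp q hq
    obtain ⟨m, rfl⟩ := Subgroup.mem_zpowers_iff.1 hp
    obtain ⟨n, rfl⟩ := Subgroup.mem_zpowers_iff.1 hq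
    exact (Commute.refl (x * y)).zpow_zpow m n

theorem BSQ (hQUO : QUO_stmt) (hFCF : FCF_stmt) (hQIV : QIV_stmt) : BSQ_stmt := by
  intro G _ a b hCE ha hfi
  have hK := hFCF G a b hCE (b ^ 2) hfi
  have h1 := hQUO G a b hCE (Subgroup.normalClosure ({b ^ 2} : Set G)) hK
  refine BSQ_false hQIV _ _ h1 ?_ ?_
  · rw [← QuotientGroup.mk_pow, ha, QuotientGroup.mk_one]
  · rw [← QuotientGroup.mk_pow, QuotientGroup.eq_one_iff]
    exact Subgroup.subset_normalClosure rfl

end Pool.Agent.QI
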